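import Pool.Agent.Helper57.BG.Stmts

/-!
# (A') block T2: the tiny type II sum, pairs with a common factor
-/

set_option autoImplicit false

open Finset

namespace Pool.Agent.Helper10.AP

open Pool.Agent.Helper57.BG

/-- a residue class in `(X, 2 X]` -/
theorem card_cls (T : Finset ℕ) (X : ℝ) (hX : 0 ≤ X) (hT : ∀ x ∈ T, X < x ∧ (x : ℝ) ≤ 2 * X) (m : ℕ) (hm : 0 < m)
    (x0 : ℤ) : ((T.filter (fun x' : ℕ => (m : ℤ) ∣ (x' : ℤ) - x0)).card : ℝ) ≤ X / m + 1 := by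
  have h1 : (T.filter (fun x' : ℕ => (m : ℤ) ∣ (x' : ℤ) - x0)).card ≤ (⌊2 * X⌋₊ - (⌊X⌋₊ + 1)) / m + 1 := by
    have h2 : ∀ x ∈ T, ⌊X⌋₊ + 1 ≤ x ∧ x ≤ ⌊2 * X⌋₊ := fun x hx =>
      ⟨(Nat.floor_lt hX).2 (hT x hx).1, Nat.le_floor (hT x hx).2⟩
    rw [← Finset.card_range ((⌊2 * X⌋₊ - (⌊X⌋₊ + 1)) / m + 1)]
    apply Finset.card_le_card_of_injOn (fun x' => (x' - (⌊X⌋₊ + 1)) / m)
    · intro x' hx'
      have hx'' := Finset.mem_filter.1 (Finset.mem_coe.1 hx')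
      have h3 := h2 x' hx''.1
      rw [Finset.mem_coe, Finset.mem_range]
      have h4 : (x' - (⌊X⌋₊ + 1)) / m ≤ (⌊2 * X⌋₊ - (⌊X⌋₊ + 1)) / m := Nat.div_le_div_right (by omega)
      exact Nat.lt_succ_of_le h4
    · intro x' hx' x'' hx'' heq
      have h3 := Finset.mem_filter.1 (Finset.mem_coe.1 hx')
      have h4 := Finset.mem_filter.1 (Finset.mem_coe.1 hx'')
      have h5 := h2 x' h3.1
      have h6 := h2 x'' h4.1
      simp only at heq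
      have h7 : (m : ℤ) ∣ (x' : ℤ) - x'' := by
        have := dvd_sub h3.2 h4.2
        rwa [sub_sub_sub_cancel_right] at this
      have h8 : (x' - (⌊X⌋₊ + 1)) ≡ (x'' - (⌊X⌋₊ + 1)) [MOD m] := by
        rw [Nat.ModEq.comm, Nat.modEq_iff_dvd]
        rw [Nat.cast_sub h5.1, Nat.cast_sub h6.1]
        rwa [sub_sub_sub_cancel_right]
      have h9 : x' - (⌊X⌋₊ + 1) = x'' - (⌊X⌋₊ + 1) := by
        rw [← Nat.div_add_mod (x' - (⌊X⌋₊ + 1)) m, ← Nat.div_add_mod (x'' - (⌊X⌋₊ + 1)) m, heq, h8]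
      omega
  have hmr : (0:ℝ) < m := by exact_mod_cast hm
  have h2 : ((⌊2 * X⌋₊ - (⌊X⌋₊ + 1) : ℕ) : ℝ) ≤ X := by
    have h3 : (⌊2 * X⌋₊ : ℝ) ≤ 2 * X := Nat.floor_le (by linarith)
    have h4 : X < (⌊X⌋₊ : ℝ) + 1 := Nat.lt_floor_add_one X
    rcases le_total (⌊X⌋₊ + 1) ⌊2 * X⌋₊ with h5 | h5
    · rw [Nat.cast_sub h5]
      push_cast
      linarith
    · rw [Nat.sub_eq_zero_of_le h5]
      simpa using hX
  calc ((T.filter (fun x' : ℕ => (m : ℤ) ∣ (x' : ℤ) - x0)).card : ℝ)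
      ≤ (((⌊2 * X⌋₊ - (⌊X⌋₊ + 1)) / m + 1 : ℕ) : ℝ) := by exact_mod_cast h1
    _ = (((⌊2 * X⌋₊ - (⌊X⌋₊ + 1)) / m : ℕ) : ℝ) + 1 := by push_cast; ring
    _ ≤ ((⌊2 * X⌋₊ - (⌊X⌋₊ + 1) : ℕ) : ℝ) / m + 1 := by
        have := @Nat.cast_div_le ℝ _ _ _ (⌊2 * X⌋₊ - (⌊X⌋₊ + 1)) m
        linarith
    _ ≤ X / m + 1 := by
        have := div_le_div_of_nonneg_right h2 hmr.le
        linarith

/-- multiples of `g` in `(0, B]` -/
theorem card_mult (T : Finset ℕ) (B : ℝ) (hB : 0 ≤ B) (hT : ∀ x ∈ T, 0 < x ∧ (x : ℝ) ≤ B) (g : ℕ) (hg : 0 < g)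
    (hTg : ∀ x ∈ T, g ∣ x) : (T.card : ℝ) ≤ B / g := by
  have hgr : (0:ℝ) < g := by exact_mod_cast hg
  have h1 : T.card ≤ ⌊B⌋₊ / g := by
    have h0 : (Finset.Icc 1 (⌊B⌋₊ / g)).card = ⌊B⌋₊ / g := by simp
    rw [← h0]
    apply Finset.card_le_card_of_injOn (fun x => x / g)
    · intro x hx
      have hx' := Finset.mem_coe.1 hx
      obtain ⟨c, rfl⟩ := hTg x hx'
      have h2 := hT _ hx'
      rw [Finset.mem_coe, Finset.mem_Icc]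
      simp only [Nat.mul_div_cancel_left c hg]
      constructor
      · rcases Nat.eq_zero_or_pos c with rfl | h
        · simp at h2
        · exact h
      · rw [Nat.le_div_iff_mul_le hg, mul_comm]
        exact Nat.le_floor h2.2
    · intro x hx y hy hxy
      obtain ⟨c, rfl⟩ := hTg x (Finset.mem_coe.1 hx)
      obtain ⟨d, rfl⟩ := hTg y (Finset.mem_coe.1 hy)
      simp only [Nat.mul_div_cancel_left _ hg] at hxy
      rw [hxy]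
  calc (T.card : ℝ) ≤ ((⌊B⌋₊ / g : ℕ) : ℝ) := by exact_mod_cast h1
    _ ≤ (⌊B⌋₊ : ℝ) / g := Nat.cast_div_le
    _ ≤ B / g := div_le_div_of_nonneg_right (Nat.floor_le hB) hgr.le


section

variable {p : TD}

theorem mem_I {i : ℕ × ℕ × ℕ} : i ∈ p.I ↔ (i.1 ∈ p.QQ ∧ i.2.1 ∈ p.W ∧ i.2.2 ∈ p.XX) ∧
    Nat.Coprime i.2.2 (i.1 * i.2.1) := by
  unfold TD.I
  rw [Finset.mem_filter, Finset.mem_product, Finset.mem_product]

theorem q2_pos (h : p.Ok) {i : ℕ × ℕ × ℕ} (hi : i ∈ p.I) : 0 < i.1 * i.2.1 := by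
  obtain ⟨⟨h1, h2, h3⟩, h4⟩ := mem_I.1 hi
  have h5 := (h.hQQ _ h1).1.ne_zero
  have h6 := (h.hW _ h2).1.pos
  exact Nat.mul_pos (Nat.pos_of_ne_zero h5) h6

theorem q2_gt (h : p.Ok) {i : ℕ × ℕ × ℕ} (hi : i ∈ p.I) : p.Q * p.P < ((i.1 * i.2.1 : ℕ) : ℝ) := by
  obtain ⟨⟨h1, h2, h3⟩, h4⟩ := mem_I.1 hi
  have h5 := (h.hQQ _ h1).2.1
  have h6 := (h.hW _ h2).2.1
  have hQ := h.hQ
  have hP := h.hP
  push_cast
  nlinarith

theorem q2_le (h : p.Ok) {i : ℕ × ℕ × ℕ} (hi : i ∈ p.I) : ((i.1 * i.2.1 : ℕ) : ℝ) ≤ 4 * (p.Q * p.P) := by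
  obtain ⟨⟨h1, h2, h3⟩, h4⟩ := mem_I.1 hi
  have h5 := (h.hQQ _ h1).2.2.1
  have h6 := (h.hW _ h2).2.2
  have hQ := h.hQ
  have hP := h.hP
  push_cast
  calc (i.1 : ℝ) * i.2.1 ≤ (2 * p.Q) * (2 * p.P) := mul_le_mul h5 h6 (Nat.cast_nonneg _) (by linarith)
    _ = 4 * (p.Q * p.P) := by ring

theorem prime_ge (h : p.Ok) {i : ℕ × ℕ × ℕ} (hi : i ∈ p.I) {r : ℕ} (hr : r.Prime) (hd : r ∣ i.1 * i.2.1) :
    p.D0 ≤ r := by
  obtain ⟨⟨h1, h2, h3⟩, h4⟩ := mem_I.1 hi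
  rcases (Nat.Prime.dvd_mul hr).1 hd with h5 | h5
  · exact (h.hQQ _ h1).2.2.2.2 r hr h5
  · have h6 := (h.hW _ h2)
    rw [(Nat.prime_dvd_prime_iff_eq hr h6.1).1 h5]
    linarith [h6.2.1, h.hDP]

theorem dvd_ge (h : p.Ok) {i : ℕ × ℕ × ℕ} (hi : i ∈ p.I) {g : ℕ} (hg : 1 < g) (hd : g ∣ i.1 * i.2.1) :
    p.D0 ≤ g := by
  have h1 := prime_ge h hi (Nat.minFac_prime hg.ne') ((Nat.minFac_dvd g).trans hd)
  have h2 : ((g.minFac : ℕ) : ℝ) ≤ g := by exact_mod_cast Nat.minFac_le (by omega)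
  linarith

theorem q2_inj (h : p.Ok) {i j : ℕ × ℕ × ℕ} (hi : i ∈ p.I) (hj : j ∈ p.I) (h1 : i.1 * i.2.1 = j.1 * j.2.1)
    (h2 : i.2.2 = j.2.2) : i = j := by
  obtain ⟨⟨h3, h4, h5⟩, -⟩ := mem_I.1 hi
  obtain ⟨⟨h6, h7, h8⟩, -⟩ := mem_I.1 hj
  have h9 : i.2.1 ∣ j.1 * j.2.1 := h1 ▸ Dvd.intro_left _ rfl
  have h10 : i.2.1 ∣ j.2.1 := (h.hWQ _ h4 _ h6).dvd_of_dvd_mul_left h9
  have h11 : i.2.1 = j.2.1 := (Nat.prime_dvd_prime_iff_eq (h.hW _ h4).1 (h.hW _ h7).1).1 h10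
  have h12 : i.1 = j.1 := by
    rw [h11] at h1
    exact Nat.eq_of_mul_eq_mul_right (h.hW _ h7).1.pos h1
  exact Prod.ext h12 (Prod.ext h11 h2)

theorem gcd_k (h : p.Ok) {i : ℕ × ℕ × ℕ} (hi : i ∈ p.I) : Int.gcd p.k (p.q1 * (i.1 * i.2.1) : ℕ) = 1 := by
  rw [← Int.isCoprime_iff_gcd_eq_one]
  rw [Nat.cast_mul]
  refine IsCoprime.mul_right (Int.isCoprime_iff_gcd_eq_one.2 h.hkq) ?_
  rw [Int.isCoprime_iff_gcd_eq_one]
  by_contra hne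
  obtain ⟨r, hr, hd⟩ := Nat.exists_prime_and_dvd hne
  have h1 : (r : ℤ) ∣ p.k := (Int.natCast_dvd_natCast.2 hd).trans (Int.gcd_dvd_left _ _)
  have h2 : (r : ℤ) ∣ ((i.1 * i.2.1 : ℕ) : ℤ) := (Int.natCast_dvd_natCast.2 hd).trans (Int.gcd_dvd_right _ _)
  have h3 := prime_ge h hi hr (Int.natCast_dvd_natCast.1 h2)
  have h4 : (r : ℤ) ≤ |p.k| := by
    have := Int.le_of_dvd (abs_pos.2 h.hk0) ((dvd_abs _ _).2 h1)
    exact this
  have h5 : (r : ℝ) ≤ |(p.k : ℝ)| := by exact_mod_cast h4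
  linarith [h.hkD]

theorem cnt (h : p.Ok) (g m : ℕ) (hg : 0 < g) (hm : 0 < m) (x0 : ℤ) :
    ((p.I.filter (fun i => g ∣ i.1 * i.2.1 ∧ (m : ℤ) ∣ (i.2.2 : ℤ) - x0)).card : ℝ) ≤
      (4 * (p.Q * p.P) / g) * (p.X / m + 1) := by
  have hQ := h.hQ
  have hP := h.hP
  have hX := h.hX
  have h1 : (p.I.filter (fun i => g ∣ i.1 * i.2.1 ∧ (m : ℤ) ∣ (i.2.2 : ℤ) - x0)).card ≤
      (((Finset.Icc 1 ⌊4 * (p.Q * p.P)⌋₊).filter (fun n => g ∣ n)) ×ˢ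
        (p.XX.filter (fun x' : ℕ => (m : ℤ) ∣ (x' : ℤ) - x0))).card := by
    apply Finset.card_le_card_of_injOn (fun i => (i.1 * i.2.1, i.2.2))
    · intro i hi
      obtain ⟨h2, h3, h4⟩ := Finset.mem_filter.1 (Finset.mem_coe.1 hi)
      rw [Finset.mem_coe, Finset.mem_product, Finset.mem_filter, Finset.mem_filter, Finset.mem_Icc]
      exact ⟨⟨⟨q2_pos h h2, Nat.le_floor (q2_le h h2)⟩, h3⟩, (mem_I.1 h2).1.2.2, h4⟩
    · intro i hi j hj hij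
      have h2 := (Finset.mem_filter.1 (Finset.mem_coe.1 hi)).1
      have h3 := (Finset.mem_filter.1 (Finset.mem_coe.1 hj)).1
      simp only [Prod.mk.injEq] at hij
      exact q2_inj h h2 h3 hij.1 hij.2
  rw [Finset.card_product] at h1
  have h2 := card_mult ((Finset.Icc 1 ⌊4 * (p.Q * p.P)⌋₊).filter (fun n => g ∣ n)) (4 * (p.Q * p.P)) (by positivity)
    (fun x hx => by
      rw [Finset.mem_filter, Finset.mem_Icc] at hx
      exact ⟨hx.1.1, (Nat.le_floor_iff (by positivity)).1 hx.1.2⟩) g hg (fun x hx => (Finset.mem_filter.1 hx).2)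
  have h3 := card_cls p.XX p.X (by linarith) (fun x hx => ⟨(h.hXX x hx).1, (h.hXX x hx).2.1⟩) m hm x0
  calc ((p.I.filter (fun i => g ∣ i.1 * i.2.1 ∧ (m : ℤ) ∣ (i.2.2 : ℤ) - x0)).card : ℝ)
      ≤ (((((Finset.Icc 1 ⌊4 * (p.Q * p.P)⌋₊).filter (fun n => g ∣ n)).card *
        (p.XX.filter (fun x' : ℕ => (m : ℤ) ∣ (x' : ℤ) - x0)).card : ℕ)) : ℝ) := by exact_mod_cast h1
    _ = (((Finset.Icc 1 ⌊4 * (p.Q * p.P)⌋₊).filter (fun n => g ∣ n)).card : ℝ) *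
        ((p.XX.filter (fun x' : ℕ => (m : ℤ) ∣ (x' : ℤ) - x0)).card : ℝ) := by push_cast; ring
    _ ≤ _ := mul_le_mul h2 h3 (Nat.cast_nonneg _) (by positivity)

/-- the bracket of one pair -/
theorem br_le (hB : Stmt_brB) (h : p.Ok) {i j : ℕ × ℕ × ℕ} (hi : i ∈ p.I) (hj : j ∈ p.I) :
    |p.br i j| ≤ (if ((p.q1 * Nat.gcd (i.1 * i.2.1) (j.1 * j.2.1) : ℕ) : ℤ) ∣ (j.2.2 : ℤ) - i.2.2 then
      (4 * p.M * (Nat.gcd (i.1 * i.2.1) (j.1 * j.2.1) : ℕ) / (p.Q * p.P) ^ 2 + 1) else 0) + 12 * p.M / (p.Q * p.P) ^ 2 := by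
  have hQ := h.hQ
  have hP := h.hP
  have hM := h.hM
  have hX := h.hX
  have hq1 : (1:ℝ) ≤ p.q1 := by exact_mod_cast h.hq1
  have hxpos : ∀ {i : ℕ × ℕ × ℕ}, i ∈ p.I → 0 < i.2.2 := by
    intro i hi
    have h1 := (h.hXX _ (mem_I.1 hi).1.2.2).1
    have : (0:ℝ) < i.2.2 := by linarith
    exact_mod_cast this
  have hY : ∀ {i : ℕ × ℕ × ℕ}, i ∈ p.I → ((p.q1 * (i.1 * i.2.1) : ℕ) : ℝ) ≤ 4 * p.M := by
    intro i hi
    have h1 := q2_le h hi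
    have h2 := h.hRM
    rw [Nat.cast_mul]
    calc (p.q1 : ℝ) * ((i.1 * i.2.1 : ℕ) : ℝ) ≤ p.q1 * (4 * (p.Q * p.P)) := mul_le_mul_of_nonneg_left h1 (by linarith)
      _ = 4 * (p.q1 * p.Q * p.P) := by ring
      _ ≤ 4 * p.M := by linarith
  have h1 := hB (4 * p.M) (by linarith) p.k p.q1 (i.1 * i.2.1) i.2.2 (j.1 * j.2.1) j.2.2 h.hq1 (q2_pos h hi)
    (q2_pos h hj) (hxpos hi) (hxpos hj) (gcd_k h hi) (gcd_k h hj) (hY hi) (hY hj)
  have hS : (0:ℝ) < p.Q * p.P := by positivity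
  have h2 := q2_gt h hi
  have h3 := q2_gt h hj
  have h4 : (p.Q * p.P) ^ 2 ≤ (p.q1 : ℝ) * ((i.1 * i.2.1 : ℕ) : ℝ) * ((j.1 * j.2.1 : ℕ) : ℝ) := by
    calc (p.Q * p.P) ^ 2 = 1 * (p.Q * p.P) * (p.Q * p.P) := by ring
      _ ≤ (p.q1 : ℝ) * ((i.1 * i.2.1 : ℕ) : ℝ) * ((j.1 * j.2.1 : ℕ) : ℝ) := by gcongr
  have h5 : (0:ℝ) < (p.Q * p.P) ^ 2 := by positivity
  refine le_trans h1 ?_
  apply add_le_add
  · split_ifs
    · have : 4 * p.M * ((Nat.gcd (i.1 * i.2.1) (j.1 * j.2.1) : ℕ) : ℝ) / ((p.q1 : ℝ) * ((i.1 * i.2.1 : ℕ) : ℝ) * ((j.1 * j.2.1 : ℕ) : ℝ)) ≤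
          4 * p.M * ((Nat.gcd (i.1 * i.2.1) (j.1 * j.2.1) : ℕ) : ℝ) / (p.Q * p.P) ^ 2 :=
        div_le_div_of_nonneg_left (by positivity) h5 h4
      linarith
    · exact le_refl _
  · have h6 : 4 * p.M / ((p.q1 : ℝ) * ((i.1 * i.2.1 : ℕ) : ℝ) * ((j.1 * j.2.1 : ℕ) : ℝ)) ≤ 4 * p.M / (p.Q * p.P) ^ 2 :=
      div_le_div_of_nonneg_left (by positivity) h5 h4
    split_ifs
    · calc _ ≤ 3 * (4 * p.M / (p.Q * p.P) ^ 2) := by linarith
        _ = 12 * p.M / (p.Q * p.P) ^ 2 := by ring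
    · positivity

/-- one row -/
theorem row_le (hB : Stmt_brB) (h : p.Ok) {i : ℕ × ℕ × ℕ} (hi : i ∈ p.I) :
    ∑ j ∈ p.I.filter (fun j => ¬ Nat.Coprime (i.1 * i.2.1) (j.1 * j.2.1)), |p.br i j| ≤
      p.R0 * (4 * (p.Q * p.P) * ((p.X / p.D0 + 1) * (4 * p.M / (p.Q * p.P) ^ 2 + 1 / p.D0) +
        24 * p.X * p.M / (p.D0 * (p.Q * p.P) ^ 2))) := by
  classical
  have hQ := h.hQ
  have hP := h.hP
  have hM := h.hM
  have hX := h.hX
  have hD := h.hD0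
  have hq1 : (1:ℝ) ≤ p.q1 := by exact_mod_cast h.hq1
  have hS : (0:ℝ) < p.Q * p.P := by positivity
  have hmaps : ∀ j ∈ p.I.filter (fun j => ¬ Nat.Coprime (i.1 * i.2.1) (j.1 * j.2.1)),
      Nat.gcd (i.1 * i.2.1) (j.1 * j.2.1) ∈ (i.1 * i.2.1).divisors.filter (fun g => 1 < g) := by
    intro j hj
    obtain ⟨h1, h2⟩ := Finset.mem_filter.1 hj
    rw [Finset.mem_filter, Nat.mem_divisors]
    refine ⟨⟨Nat.gcd_dvd_left _ _, (q2_pos h hi).ne'⟩, ?_⟩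
    have h3 : 0 < Nat.gcd (i.1 * i.2.1) (j.1 * j.2.1) := Nat.gcd_pos_of_pos_left _ (q2_pos h hi)
    have h4 : Nat.gcd (i.1 * i.2.1) (j.1 * j.2.1) ≠ 1 := h2
    omega
  rw [← Finset.sum_fiberwise_of_maps_to hmaps]
  set E : ℝ := 4 * (p.Q * p.P) * ((p.X / p.D0 + 1) * (4 * p.M / (p.Q * p.P) ^ 2 + 1 / p.D0) +
        24 * p.X * p.M / (p.D0 * (p.Q * p.P) ^ 2)) with hE
  have hE0 : 0 ≤ E := by positivity
  have hterm : ∀ g ∈ (i.1 * i.2.1).divisors.filter (fun g => 1 < g),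
      ∑ j ∈ (p.I.filter (fun j => ¬ Nat.Coprime (i.1 * i.2.1) (j.1 * j.2.1))).filter
        (fun j => Nat.gcd (i.1 * i.2.1) (j.1 * j.2.1) = g), |p.br i j| ≤ E := by
    intro g hg
    obtain ⟨hgd, hg1⟩ := Finset.mem_filter.1 hg
    have hgd := (Nat.mem_divisors.1 hgd).1
    have hgD : p.D0 ≤ g := dvd_ge h hi hg1 hgd
    have hgr : (0:ℝ) < g := by linarith
    set F := (p.I.filter (fun j => ¬ Nat.Coprime (i.1 * i.2.1) (j.1 * j.2.1))).filter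
        (fun j => Nat.gcd (i.1 * i.2.1) (j.1 * j.2.1) = g) with hF
    have hFI : ∀ j ∈ F, j ∈ p.I ∧ Nat.gcd (i.1 * i.2.1) (j.1 * j.2.1) = g := by
      intro j hj
      obtain ⟨h1, h2⟩ := Finset.mem_filter.1 hj
      exact ⟨(Finset.mem_filter.1 h1).1, h2⟩
    have h1 : ∑ j ∈ F, |p.br i j| ≤ ∑ j ∈ F, ((if ((p.q1 * g : ℕ) : ℤ) ∣ (j.2.2 : ℤ) - i.2.2 then
        (4 * p.M * (g : ℕ) / (p.Q * p.P) ^ 2 + 1) else 0) + 12 * p.M / (p.Q * p.P) ^ 2) := by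
      apply Finset.sum_le_sum
      intro j hj
      have h2 := br_le hB h hi (hFI j hj).1
      rwa [(hFI j hj).2] at h2
    have h2 : ((F.filter (fun j => ((p.q1 * g : ℕ) : ℤ) ∣ (j.2.2 : ℤ) - i.2.2)).card : ℝ) ≤
        (4 * (p.Q * p.P) / g) * (p.X / (p.q1 * g : ℕ) + 1) := by
      refine le_trans ?_ (cnt h g (p.q1 * g) (by omega) (Nat.mul_pos h.hq1 (by omega)) i.2.2)
      exact_mod_cast Finset.card_le_card (fun j hj => by
        obtain ⟨h3, h4⟩ := Finset.mem_filter.1 hj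
        obtain ⟨h5, h6⟩ := hFI j h3
        exact Finset.mem_filter.2 ⟨h5, h6 ▸ Nat.gcd_dvd_right _ _, h4⟩)
    have h3 : (F.card : ℝ) ≤ (4 * (p.Q * p.P) / g) * (p.X + 1) := by
      have := cnt h g 1 (by omega) one_pos 0
      have e1 : ((1:ℕ):ℝ) = 1 := Nat.cast_one
      rw [e1, div_one] at this
      refine le_trans ?_ this
      exact_mod_cast Finset.card_le_card (fun j hj => by
        obtain ⟨h5, h6⟩ := hFI j hj
        exact Finset.mem_filter.2 ⟨h5, h6 ▸ Nat.gcd_dvd_right _ _, by simp⟩)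
    refine le_trans h1 ?_
    rw [Finset.sum_add_distrib, ← Finset.sum_filter, Finset.sum_const, Finset.sum_const, nsmul_eq_mul, nsmul_eq_mul]
    have h4 : p.X / (p.q1 * g : ℕ) ≤ p.X / p.D0 := by
      apply div_le_div_of_nonneg_left (by linarith) (by linarith)
      push_cast
      nlinarith
    have h5 : (1:ℝ) / g ≤ 1 / p.D0 := one_div_le_one_div_of_le (by linarith) hgD
    have h6 : ((F.filter (fun j => ((p.q1 * g : ℕ) : ℤ) ∣ (j.2.2 : ℤ) - i.2.2)).card : ℝ) *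
        (4 * p.M * (g : ℕ) / (p.Q * p.P) ^ 2 + 1) ≤
        4 * (p.Q * p.P) * ((p.X / p.D0 + 1) * (4 * p.M / (p.Q * p.P) ^ 2 + 1 / p.D0)) := by
      calc _ ≤ ((4 * (p.Q * p.P) / g) * (p.X / p.D0 + 1)) * (4 * p.M * (g : ℕ) / (p.Q * p.P) ^ 2 + 1) := by
            apply mul_le_mul_of_nonneg_right _ (by positivity)
            refine le_trans h2 ?_
            apply mul_le_mul_of_nonneg_left _ (by positivity)
            linarith
        _ = 4 * (p.Q * p.P) * ((p.X / p.D0 + 1) * (4 * p.M / (p.Q * p.P) ^ 2 + 1 / g)) := by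
            field_simp
        _ ≤ _ := by
            apply mul_le_mul_of_nonneg_left _ (by positivity)
            apply mul_le_mul_of_nonneg_left _ (by positivity)
            linarith
    have h7 : (F.card : ℝ) * (12 * p.M / (p.Q * p.P) ^ 2) ≤
        4 * (p.Q * p.P) * (24 * p.X * p.M / (p.D0 * (p.Q * p.P) ^ 2)) := by
      calc _ ≤ ((4 * (p.Q * p.P) / g) * (2 * p.X)) * (12 * p.M / (p.Q * p.P) ^ 2) := by
            apply mul_le_mul_of_nonneg_right _ (by positivity)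
            refine le_trans h3 ?_
            apply mul_le_mul_of_nonneg_left _ (by positivity)
            linarith
        _ = 4 * (p.Q * p.P) * (24 * p.X * p.M / (p.Q * p.P) ^ 2) * (1 / g) := by
            field_simp
            ring
        _ ≤ 4 * (p.Q * p.P) * (24 * p.X * p.M / (p.Q * p.P) ^ 2) * (1 / p.D0) := by
            apply mul_le_mul_of_nonneg_left h5 (by positivity)
        _ = _ := by
            field_simp
    rw [hE, mul_add]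
    linarith
  calc _ ≤ ∑ g ∈ (i.1 * i.2.1).divisors.filter (fun g => 1 < g), E := Finset.sum_le_sum hterm
    _ = (((i.1 * i.2.1).divisors.filter (fun g => 1 < g)).card : ℝ) * E := by rw [Finset.sum_const, nsmul_eq_mul]
    _ ≤ p.R0 * E := by
        apply mul_le_mul_of_nonneg_right _ hE0
        have h1 := h.hR0 (i.1 * i.2.1) (q2_pos h hi) (by
          have := q2_le h hi
          nlinarith)
        refine le_trans ?_ h1
        exact_mod_cast Finset.card_filter_le _ _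

theorem t2 (hB : Stmt_brB) (p : TD) (h : p.Ok) :
    p.Sb ≤ 1100 * p.R0 * (p.M * p.X + p.M * p.X ^ 2 / p.D0 +
    (p.Q * p.P) ^ 2 * p.X / p.D0 + (p.Q * p.P) ^ 2 * p.X ^ 2 / p.D0 ^ 2) := by
  classical
  have hQ := h.hQ
  have hP := h.hP
  have hM := h.hM
  have hX := h.hX
  have hD := h.hD0
  have hS : (0:ℝ) < p.Q * p.P := by positivity
  have hR : 0 ≤ p.R0 := by
    have := h.hR0 1 le_rfl (by
      have : (1:ℝ) ≤ p.Q * p.P := by nlinarith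
      push_cast
      nlinarith)
    simp at this
    linarith
  have h1 : p.Sb = ∑ i ∈ p.I, ∑ j ∈ p.I.filter (fun j => ¬ Nat.Coprime (i.1 * i.2.1) (j.1 * j.2.1)), |p.br i j| := by
    unfold TD.Sb
    rw [Finset.sum_filter, Finset.sum_product]
    apply Finset.sum_congr rfl
    intro i _
    rw [Finset.sum_filter]
  rw [h1]
  set E : ℝ := p.R0 * (4 * (p.Q * p.P) * ((p.X / p.D0 + 1) * (4 * p.M / (p.Q * p.P) ^ 2 + 1 / p.D0) +
        24 * p.X * p.M / (p.D0 * (p.Q * p.P) ^ 2))) with hE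
  have hE0 : 0 ≤ E := by positivity
  have h2 : (p.I.card : ℝ) ≤ 8 * (p.Q * p.P) * p.X := by
    have h3 := cnt h 1 1 one_pos one_pos 0
    have e1 : ((1:ℕ):ℝ) = 1 := Nat.cast_one
    rw [e1, div_one, div_one] at h3
    have h4 : p.I.filter (fun i => 1 ∣ i.1 * i.2.1 ∧ ((1 : ℕ) : ℤ) ∣ (i.2.2 : ℤ) - 0) = p.I := by
      apply Finset.filter_true_of_mem
      intro i _
      simp
    rw [h4] at h3
    nlinarith
  calc ∑ i ∈ p.I, ∑ j ∈ p.I.filter (fun j => ¬ Nat.Coprime (i.1 * i.2.1) (j.1 * j.2.1)), |p.br i j|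
      ≤ ∑ i ∈ p.I, E := Finset.sum_le_sum (fun i hi => row_le hB h hi)
    _ = (p.I.card : ℝ) * E := by rw [Finset.sum_const, nsmul_eq_mul]
    _ ≤ (8 * (p.Q * p.P) * p.X) * E := mul_le_mul_of_nonneg_right h2 hE0
    _ = p.R0 * (896 * (p.M * p.X ^ 2 / p.D0) + 128 * (p.M * p.X) + 32 * ((p.Q * p.P) ^ 2 * p.X / p.D0) +
        32 * ((p.Q * p.P) ^ 2 * p.X ^ 2 / p.D0 ^ 2)) := by
        rw [hE]
        field_simp
        ring
    _ ≤ p.R0 * (1100 * (p.M * p.X ^ 2 / p.D0) + 1100 * (p.M * p.X) + 1100 * ((p.Q * p.P) ^ 2 * p.X / p.D0) +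
        1100 * ((p.Q * p.P) ^ 2 * p.X ^ 2 / p.D0 ^ 2)) := by
        apply mul_le_mul_of_nonneg_left _ hR
        have a1 : 0 ≤ p.M * p.X ^ 2 / p.D0 := by positivity
        have a2 : 0 ≤ p.M * p.X := by positivity
        have a3 : 0 ≤ (p.Q * p.P) ^ 2 * p.X / p.D0 := by positivity
        have a4 : 0 ≤ (p.Q * p.P) ^ 2 * p.X ^ 2 / p.D0 ^ 2 := by positivity
        linarith
    _ = _ := by ring

end

end Pool.Agent.Helper10.AP
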